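import Pool.Agent.Lib.MP_d87a8f_pr.K56.K2
import Pool.Agent.Lib.MP_d87a8f_pr.J.Jordan

/-! Orders of elements and of commutative subgroups in a perfect normal subgroup that is a chief
factor over a central subgroup. -/

open Matrix Finset Polynomial Module
open scoped commutatorElement

namespace Pool.Agent.Lib.MP_d87a8f_pr.K56

variable {n : Type} [Fintype n] [DecidableEq n] {G : Type} [Group G] {p : ℕ}

/-- `L` is normal and perfect, `Z < L` is normal and central in `L`, nothing normal is between. -/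
structure Chief (L Z : Subgroup G) : Prop where
  nL : L.Normal
  nZ : Z.Normal
  perf : ⁅L, L⁆ = L
  lt : Z < L
  cen : ∀ l ∈ L, ∀ z ∈ Z, Commute l z
  btw : ∀ W : Subgroup G, W.Normal → Z ≤ W → W ≤ L → W = Z ∨ W = L

variable {L Z : Subgroup G}

theorem Chief.le_of_solvable (h : Chief L Z) {N : Subgroup G} (hN : N.Normal) (hL : N ≤ L)
    (hs : Group.IsSolvable N) : N ≤ Z := by
  have := h.nZ
  rcases h.btw (N ⊔ Z) inferInstance le_sup_right (sup_le hL h.lt.le) with e | e
  · exact le_sup_left.trans e.le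
  exfalso
  have h1 : L ≤ N := by
    rw [← h.perf, Subgroup.commutator_le]
    intro a ha b hb
    obtain ⟨x, hx, z, hz, rfl⟩ := Subgroup.mem_sup_of_normal_right.1 (e ▸ ha)
    have e1 : ⁅x * z, b⁆ = x * (b * x⁻¹ * b⁻¹) := by
      rw [commutatorElement_def, mul_assoc x, ← (h.cen b hb z hz).eq]
      group
    rw [e1]
    exact N.mul_mem hx (hN.conj_mem _ (N.inv_mem hx) b)
  obtain rfl : N = L := le_antisymm hL h1
  have : Nontrivial N := (Subgroup.nontrivial_iff_ne_bot N).2 h.lt.ne_bot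
  have h2 := Subgroup.map_subtype_lt_map_subtype.2
    (Group.IsSolvable.commutator_lt_top_of_nontrivial N)
  rw [Subgroup.map_subtype_commutator, h.perf, ← MonoidHom.range_eq_map,
    Subgroup.range_subtype] at h2
  exact lt_irrefl _ h2

theorem Chief.mem_of_comm (h : Chief L Z) {x : G} (hx : x ∈ L)
    (hc : ∀ a b : G, Commute (a * x * a⁻¹) (b * x * b⁻¹)) : x ∈ Z := by
  have := h.nL
  have h1 : IsMulCommutative (Subgroup.normalClosure ({x} : Set G)) :=
    Subgroup.isMulCommutative_closure fun a ha b hb => by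
      obtain ⟨_, rfl, h2⟩ := Group.mem_conjugatesOfSet_iff.1 ha
      obtain ⟨_, rfl, h3⟩ := Group.mem_conjugatesOfSet_iff.1 hb
      obtain ⟨c, rfl⟩ := isConj_iff.1 h2
      obtain ⟨d, rfl⟩ := isConj_iff.1 h3
      exact hc c d
  exact h.le_of_solvable (N := Subgroup.normalClosure {x}) inferInstance
    (Subgroup.normalClosure_le_normal (Set.singleton_subset_iff.2 hx))
    (Group.isSolvable_of_comm h1.is_comm.comm) (Subgroup.subset_normalClosure rfl)

/-- A basis of common eigenvectors. -/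
theorem joint [Finite G] (ρ : G →* Matrix n n ℂ) (B : Subgroup G)
    (hB : ∀ a ∈ B, ∀ b ∈ B, Commute (ρ a) (ρ b)) :
    ∃ (v : Basis n ℂ (n → ℂ)) (χ : n → G → ℂ), ∀ i, ∀ b ∈ B, ρ b *ᵥ v i = χ i b • v i := by
  classical
  let f : B → End ℂ (n → ℂ) := fun b => toLinAlgEquiv' (ρ b)
  have h1 := End.iSup_iInf_maxGenEigenspace_eq_top_of_iSup_maxGenEigenspace_eq_top_of_commute f
    (fun a b _ => (hB a a.2 b b.2).map toLinAlgEquiv')
    fun b => End.iSup_maxGenEigenspace_eq_top _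
  have h2 : ∀ b, (f b).IsFinitelySemisimple := fun b => by
    refine (End.isSemisimple_of_squarefree_aeval_eq_zero
      (separable_X_pow_sub_C (n := orderOf (b : G)) (1 : ℂ)
        (Nat.cast_ne_zero.2 (orderOf_pos _).ne') one_ne_zero).squarefree ?_).isFinitelySemisimple
    simp only [f, map_sub, map_pow, aeval_X, map_one]
    rw [← map_pow, ← map_pow, pow_orderOf_eq_one, map_one, map_one, sub_self]
  have h3 : ⊤ ≤ Submodule.span ℂ {w : n → ℂ | ∃ c : G → ℂ, ∀ b ∈ B, ρ b *ᵥ w = c b • w} := by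
    rw [← h1]
    refine iSup_le fun c w hw => Submodule.subset_span
      ⟨fun g => if hg : g ∈ B then c ⟨g, hg⟩ else 0, fun b hb => ?_⟩
    have h4 := (Submodule.mem_iInf _).1 hw ⟨b, hb⟩
    rw [(h2 _).maxGenEigenspace_eq_eigenspace, End.mem_eigenspace_iff] at h4
    simpa [hb, f] using h4
  let v := (Basis.ofSpan h3).reindex ((Basis.ofSpan h3).indexEquiv (Pi.basisFun ℂ n))
  have h5 : ∀ i, ∃ c : G → ℂ, ∀ b ∈ B, ρ b *ᵥ v i = c b • v i := fun i =>
    Basis.ofSpan_subset h3 ⟨_, (Basis.reindex_apply _ _ i).symm⟩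
  choose χ hχ using h5
  exact ⟨v, χ, hχ⟩

theorem ext_basis (v : Basis n ℂ (n → ℂ)) {A B : Matrix n n ℂ} (h : ∀ i, A *ᵥ v i = B *ᵥ v i) :
    A = B := toLin'.injective (v.ext h)

theorem eig_pow {A : Matrix n n ℂ} {w : n → ℂ} {c : ℂ} (h : A *ᵥ w = c • w) (k : ℕ) :
    A ^ k *ᵥ w = c ^ k • w := by
  induction k with
  | zero => simp
  | succ k ih => rw [pow_succ, ← mulVec_mulVec, h, mulVec_smul, ih, smul_smul, pow_succ']

/-- The determinant on an invariant subspace is trivial on a perfect group. -/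
theorem scal_pow (ρ : G →* Matrix n n ℂ) (hL : ⁅L, L⁆ = L) (W : Submodule ℂ (n → ℂ))
    (hW : ∀ l ∈ L, ∀ w ∈ W, ρ l *ᵥ w ∈ W) {z : G} (hz : z ∈ L) {c : ℂ}
    (hc : ∀ w ∈ W, ρ z *ᵥ w = c • w) : c ^ finrank ℂ W = 1 := by
  let r : L → End ℂ W := fun l => (toLin' (ρ l)).restrict (hW l l.2)
  let φ : L →* ℂ :=
    { toFun := fun l => LinearMap.det (r l)
      map_one' := by
        have : r 1 = 1 := by
          ext w
          simp [r]
        rw [this, map_one]
      map_mul' := fun a b => by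
        have : r (a * b) = r a * r b := LinearMap.ext fun w => Subtype.ext (by
          change ρ (a * b) *ᵥ w = ρ a *ᵥ ρ b *ᵥ w
          rw [map_mul, mulVec_mulVec])
        rw [this, map_mul] }
  have h1 : commutator L = ⊤ := Subgroup.map_injective L.subtype_injective (by
    rw [Subgroup.map_subtype_commutator, hL, ← MonoidHom.range_eq_map, Subgroup.range_subtype])
  have h2 : φ.toHomUnits ⟨z, hz⟩ = 1 :=
    Abelianization.commutator_subset_ker φ.toHomUnits (h1 ▸ Subgroup.mem_top _)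
  have h3 : LinearMap.det (r ⟨z, hz⟩) = 1 := congrArg Units.val h2
  have h4 : r ⟨z, hz⟩ = c • LinearMap.id := LinearMap.ext fun w => Subtype.ext (hc w w.2)
  rwa [h4, LinearMap.det_smul, LinearMap.det_id, mul_one] at h3

/-- The weights of a central subgroup are roots of unity of order at most the degree. -/
theorem Chief.weights [Finite G] (h : Chief L Z) (ρ : G →* Matrix n n ℂ) :
    ∃ (v : Basis n ℂ (n → ℂ)) (χ : n → G → ℂ) (m : n → ℕ), ∀ i, 0 < m i ∧
      m i ≤ Fintype.card n ∧ ∀ z ∈ Z, ρ z *ᵥ v i = χ i z • v i ∧ χ i z ^ m i = 1 := by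
  obtain ⟨v, χ, hv⟩ := joint ρ Z fun a ha b hb => (h.cen a (h.lt.le ha) b hb).map ρ
  let W : n → Submodule ℂ (n → ℂ) := fun i =>
    { carrier := {w | ∀ z ∈ Z, ρ z *ᵥ w = χ i z • w}
      add_mem' := fun ha hb z hz => by rw [mulVec_add, ha z hz, hb z hz, smul_add]
      zero_mem' := fun z _ => by simp
      smul_mem' := fun c w hw z hz => by rw [mulVec_smul, hw z hz, smul_comm] }
  refine ⟨v, χ, fun i => finrank ℂ (W i), fun i => ⟨?_, ?_, fun z hz => ⟨hv i z hz, ?_⟩⟩⟩
  · exact finrank_pos_iff_exists_ne_zero.2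
      ⟨⟨v i, hv i⟩, fun e => v.ne_zero i (congrArg Subtype.val e)⟩
  · exact (W i).finrank_le.trans (finrank_fintype_fun_eq_card ℂ).le
  · refine scal_pow ρ h.perf (W i) (fun l hl w hw y hy => ?_) (h.lt.le hz) fun w hw => hw z hz
    rw [mulVec_mulVec, ← ((h.cen l hl y hy).map ρ).eq, ← mulVec_mulVec, hw y hy, mulVec_smul]

variable [Finite G] {ρ : G →* Matrix n n ℂ}

theorem Chief.card_le (h : Chief L Z) (hρ : Function.Injective ρ) :
    Nat.card Z ≤ Fintype.card n ^ Fintype.card n := by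
  classical
  obtain ⟨v, χ, m, hv⟩ := h.weights ρ
  let f : Z → ∀ i, (nthRoots (m i) (1 : ℂ)).toFinset := fun z i =>
    ⟨χ i z, Multiset.mem_toFinset.2 ((mem_nthRoots (hv i).1).2 ((hv i).2.2 z z.2).2)⟩
  have hf : Function.Injective f := fun a b e => Subtype.ext (hρ (ext_basis v fun i => by
    rw [((hv i).2.2 a a.2).1, ((hv i).2.2 b b.2).1,
      show χ i a = χ i b from congrArg Subtype.val (congrFun e i)]))
  refine (Nat.card_le_card_of_injective f hf).trans ?_
  rw [Nat.card_pi]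
  refine Finset.prod_le_pow_card _ _ _ fun i _ => ?_
  rw [Nat.card_eq_fintype_card, Fintype.card_coe]
  exact (Multiset.toFinset_card_le _).trans ((card_nthRoots _ _).trans (hv i).2.1)

theorem Chief.pow_log (h : Chief L Z) (hρ : Function.Injective ρ) (hp : p.Prime) {z : G}
    (hz : z ∈ Z) {k : ℕ} (hk : z ^ p ^ k = 1) : z ^ p ^ Nat.log p (Fintype.card n) = 1 := by
  obtain ⟨v, χ, m, hv⟩ := h.weights ρ
  refine hρ (ext_basis v fun i => ?_)
  obtain ⟨m0, m1, m2⟩ := hv i
  obtain ⟨h1, h2⟩ := m2 z hz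
  have h3 : χ i z ^ p ^ k = 1 := by
    have := eig_pow h1 (p ^ k)
    rw [← map_pow, hk, map_one, one_mulVec] at this
    exact smul_left_injective ℂ (v.ne_zero i) (this.symm.trans (one_smul _ _).symm)
  obtain ⟨t, -, ht⟩ := (Nat.dvd_prime_pow hp).1 (orderOf_dvd_of_pow_eq_one h3)
  have h4 : p ^ t ≤ Fintype.card n :=
    (Nat.le_of_dvd m0 (ht ▸ orderOf_dvd_of_pow_eq_one h2)).trans m1
  have h5 : χ i z ^ p ^ Nat.log p (Fintype.card n) = 1 := orderOf_dvd_iff_pow_eq_one.1
    (ht ▸ pow_dvd_pow p (Nat.le_log_of_pow_le hp.one_lt h4))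
  rw [map_pow, eig_pow h1, h5, map_one, one_mulVec, one_smul]

theorem Chief.pow_mem (h : Chief L Z) (hρ : Function.Injective ρ) (hp : p.Prime) {x : G}
    (hx : x ∈ L) {k c : ℕ} (hk : x ^ p ^ k = 1) (hc : Fintype.card n ≤ p ^ c) : x ^ p ^ c ∈ Z := by
  have := Fact.mk hp
  have := h.nL
  obtain ⟨N, h1, h2, h3⟩ := exists_normal_p ρ hp
  have h4 : IsPGroup p (N ⊓ L : Subgroup G) := fun y => by
    obtain ⟨j, hj⟩ := h2 y y.2.1
    exact ⟨j, Subtype.ext (hρ (by simpa using hj))⟩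
  have := h4.isNilpotent
  exact h.le_of_solvable (N := N ⊓ L) inferInstance inf_le_right inferInstance
    ⟨h3 x k c hk hc, L.pow_mem hx _⟩

omit [Finite G] in
theorem Chief.card_pos (h : Chief L Z) (hρ : Function.Injective ρ) : 0 < Fintype.card n := by
  refine Fintype.card_pos_iff.2 (not_isEmpty_iff.1 fun _ => h.lt.ne_bot ?_)
  exact (Subgroup.eq_bot_iff_forall _).2 fun x _ => hρ (Subsingleton.elim _ _)

/-- No large prime divides the order of `L`. -/
theorem Chief.prime_lt (h : Chief L Z) (hρ : Function.Injective ρ)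
    (hu : ∀ g, ρ g * (ρ g)ᴴ = 1) (hp : p.Prime) {x : G} (hx : x ∈ L) (h1 : x ≠ 1)
    (hk : x ^ p = 1) : p < 16 * Fintype.card n ^ 2 := by
  by_contra hD
  have h2 : ∀ a : G, (a * x * a⁻¹) ^ p = 1 := fun a => by rw [conj_pow, hk]; simp
  have h3 := h.mem_of_comm hx fun a b => hρ (by
    rw [map_mul ρ (a * x * a⁻¹), map_mul ρ (b * x * b⁻¹)]
    exact commute_of_prime ρ hu hp (not_lt.1 hD) (h2 a) (h2 b))
  have h4 := h.pow_log hρ hp h3 (k := 1) (by rwa [pow_one])
  have h5 := h.card_pos hρ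
  rw [Nat.log_of_lt (by nlinarith), pow_zero, pow_one] at h4
  exact h1 h4

/-- Elements of prime power order of `L` have small order. -/
theorem Chief.orderOf_le (h : Chief L Z) (hρ : Function.Injective ρ)
    (hu : ∀ g, ρ g * (ρ g)ᴴ = 1) (hp : p.Prime) {x : G} (hx : x ∈ L) {k : ℕ}
    (hk : x ^ p ^ k = 1) : orderOf x ≤ 16 * Fintype.card n ^ 4 := by
  have h0 := h.card_pos hρ
  set D := Fintype.card n with hD
  obtain ⟨t, -, ht⟩ := (Nat.dvd_prime_pow hp).1 (orderOf_dvd_of_pow_eq_one hk)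
  rcases t with _ | t
  · rw [ht, pow_zero]
    exact Nat.mul_pos (by norm_num) (pow_pos h0 _)
  have h1 : p < 16 * D ^ 2 := h.prime_lt hρ hu hp (L.pow_mem hx (p ^ t))
    (pow_ne_one_of_lt_orderOf (pow_pos hp.pos _).ne'
      (ht ▸ Nat.pow_lt_pow_right hp.one_lt t.lt_succ_self))
    (by rw [← pow_mul, ← pow_succ, ← ht, pow_orderOf_eq_one])
  have h2 := h.pow_mem hρ hp hx hk (Nat.lt_pow_succ_log_self hp.one_lt D).le
  have h3 := h.pow_log hρ hp h2 (k := k) (by rw [← pow_mul, mul_comm, pow_mul, hk, one_pow])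
  rw [← pow_mul] at h3
  have h4 := Nat.pow_log_le_self p h0.ne'
  refine (orderOf_le_of_pow_eq_one (Nat.mul_pos (pow_pos hp.pos _) (pow_pos hp.pos _)) h3).trans ?_
  calc p ^ (Nat.log p D).succ * p ^ Nat.log p D = p * (p ^ Nat.log p D * p ^ Nat.log p D) := by
        rw [pow_succ]; ring
    _ ≤ 16 * D ^ 2 * (D * D) := by gcongr
    _ = 16 * D ^ 4 := by ring

theorem pack {R : Type} [NormedRing R] [NormedAlgebra ℂ R] (π : G →* R) (h : ∀ g, ‖π g‖ ≤ 1)
    (Y : Subgroup G) (E : Submodule ℂ R) [FiniteDimensional ℂ E] (hE : ∀ g, π g ∈ E)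
    (hY : ∀ g, ‖π g - 1‖ < 1 / 2 → g ∈ Y) : Y.index ≤ 25 ^ finrank ℂ E := by
  classical
  have : Fintype (G ⧸ Y) := Fintype.ofFinite _
  set f : G ⧸ Y → E := fun q => (2 : ℂ) • ⟨π q.out⁻¹, hE _⟩ with hf
  have hsep : ∀ q q', q ≠ q' → 1 ≤ ‖f q - f q'‖ := by
    intro q q' hq
    by_contra hlt
    apply hq
    rw [← q.out_eq, ← q'.out_eq]
    refine QuotientGroup.eq.mpr (hY _ ?_)
    have a1 := J.del_div π h q.out⁻¹ q'.out⁻¹
    rw [inv_inv] at a1
    simp only [hf, ← smul_sub, norm_smul, Complex.norm_ofNat, not_le] at hlt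
    change 2 * ‖π q.out⁻¹ - π q'.out⁻¹‖ < 1 at hlt
    linarith
  have hinj : Function.Injective f := fun q q' hq => by
    by_contra hne
    have := hsep q q' hne
    rw [hq, sub_self, norm_zero] at this
    linarith
  have hc := Besicovitch.card_le_of_separated (univ.image f) (fun c hc => by
    obtain ⟨q, -, rfl⟩ := mem_image.1 hc
    simp only [hf, norm_smul, Complex.norm_ofNat]
    change 2 * ‖π q.out⁻¹‖ ≤ 2
    linarith [h q.out⁻¹]) (fun c hc e he hne => by
    obtain ⟨q, -, rfl⟩ := mem_image.1 hc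
    obtain ⟨q', -, rfl⟩ := mem_image.1 he
    exact hsep q q' fun h0 => hne (by rw [h0]))
  rw [card_image_of_injective _ hinj, card_univ, finrank_real_of_complex, pow_mul] at hc
  rw [Subgroup.index, Nat.card_eq_fintype_card]
  exact hc

open scoped Matrix.Norms.L2Operator in
/-- Commutative subgroups of `L` are small. -/
theorem Chief.comm_card_le (h : Chief L Z) (hρ : Function.Injective ρ)
    (hu : ∀ g, ρ g * (ρ g)ᴴ = 1) {B : Subgroup G} (hL : B ≤ L)
    (hB : ∀ a ∈ B, ∀ b ∈ B, Commute a b) :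
    Nat.card B ≤ (25 * Fintype.card n) ^ Fintype.card n := by
  have := Fintype.ofFinite G
  have : Nonempty n := Fintype.card_pos_iff.1 (h.card_pos hρ)
  have hn : ∀ g, ‖ρ g‖ ≤ 1 := fun g => by
    have := CStarRing.norm_self_mul_star (x := ρ g)
    rw [star_eq_conjTranspose, hu g, norm_one] at this
    nlinarith [norm_nonneg (ρ g)]
  obtain ⟨v, χ, hv⟩ := joint ρ B fun a ha b hb => (hB a ha b hb).map ρ
  let T : (n → ℂ) →ₗ[ℂ] Matrix n n ℂ :=
    { toFun := fun c => LinearMap.toMatrix' (v.constr ℂ fun i => c i • v i)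
      map_add' := fun a b => by
        rw [← map_add, ← map_add]
        simp only [Pi.add_apply, add_smul]
        rfl
      map_smul' := fun a b => by
        rw [← map_smul, ← map_smul]
        simp only [Pi.smul_apply, smul_assoc]
        rfl }
  have h1 := pack (ρ.comp B.subtype) (fun g => hn g) (Z.subgroupOf B) (LinearMap.range T)
    (fun g => ⟨fun i => χ i g, ext_basis v fun i => by
      rw [show (ρ.comp B.subtype) g *ᵥ v i = _ from hv i g g.2]
      simp [T, LinearMap.toMatrix'_mulVec]⟩)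
    fun g hg => h.mem_of_comm (hL g.2) fun a b => hρ (by
      rw [map_mul ρ (a * _ * a⁻¹), map_mul ρ (b * _ * b⁻¹)]
      exact J.frob ρ hn _ ((J.del_conj ρ hn a g).trans_lt hg) _ ((J.del_conj ρ hn b g).trans_lt hg))
  have h2 : finrank ℂ (LinearMap.range T) ≤ Fintype.card n :=
    T.finrank_range_le.trans (finrank_fintype_fun_eq_card ℂ).le
  have h3 : Nat.card (Z.subgroupOf B) ≤ Nat.card Z := Nat.card_le_card_of_injective
    (fun z => ⟨z.1.1, z.2⟩) fun a b e => Subtype.ext (Subtype.ext (congrArg (fun z : Z => (z : G)) e))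
  rw [← (Z.subgroupOf B).index_mul_card, mul_pow]
  exact Nat.mul_le_mul (h1.trans (Nat.pow_le_pow_right (by norm_num) h2))
    (h3.trans (h.card_le hρ))

end Pool.Agent.Lib.MP_d87a8f_pr.K56
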