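import Pool.Agent.Lib.MP_d87a8f_pr.K56.K3

/-! Small powers of `p`-elements of a finite linear group lie in a normal `p`-subgroup. -/

open Matrix Finset Polynomial

namespace Pool.Agent.Lib.MP_d87a8f_pr.K56

section alg
variable {O L : Type} [CommRing O] [Ring L] [Algebra O L] {P : Ideal O}

theorem jl (a : L) {m : L} (h : m ∈ P • (⊤ : Submodule O L)) : a * m ∈ P • (⊤ : Submodule O L) := by
  refine Submodule.smul_induction_on h (fun r hr b _ => ?_) fun b c hb hc => ?_
  · rw [mul_smul_comm]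
    exact Submodule.smul_mem_smul hr trivial
  · rw [mul_add]
    exact add_mem hb hc

theorem jr (a : L) {m : L} (h : m ∈ P • (⊤ : Submodule O L)) : m * a ∈ P • (⊤ : Submodule O L) := by
  refine Submodule.smul_induction_on h (fun r hr b _ => ?_) fun b c hb hc => ?_
  · rw [smul_mul_assoc]
    exact Submodule.smul_mem_smul hr trivial
  · rw [add_mul]
    exact add_mem hb hc

theorem jpow {u : L} (h : u - 1 ∈ P • (⊤ : Submodule O L)) (k : ℕ) :
    u ^ k - 1 ∈ P • (⊤ : Submodule O L) := by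
  rw [← mul_geom_sum]
  exact jr _ h

theorem nak [Module.Finite O L] {u : L} {l : ℕ} (hu : u ^ l = 1)
    (h : u - 1 ∈ P • (⊤ : Submodule O L)) {a : O} (ha : 1 - a * l ∈ P) :
    ∃ r : O, r - 1 ∈ P ∧ r • (u - 1) = 0 := by
  let f : L →ₗ[O] L := LinearMap.mulLeft O (u - 1)
  have h1 : (u - 1) * ∑ k ∈ range l, u ^ k = 0 := by rw [mul_geom_sum, hu, sub_self]
  have h2 : ∑ k ∈ range l, (u ^ k - 1) ∈ P • (⊤ : Submodule O L) :=
    Submodule.sum_mem _ fun k _ => jpow h k
  rw [Finset.sum_sub_distrib, Finset.sum_const, Finset.card_range] at h2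
  have h3 : 1 - a • ∑ k ∈ range l, u ^ k ∈ P • (⊤ : Submodule O L) := by
    have : 1 - a • ∑ k ∈ range l, u ^ k =
        (1 - a * l) • (1 : L) - a • (∑ k ∈ range l, u ^ k - l • (1 : L)) := by
      rw [← Nat.cast_smul_eq_nsmul O]
      module
    rw [this]
    exact sub_mem (Submodule.smul_mem_smul ha trivial) (Submodule.smul_mem _ _ h2)
  have h4 : Submodule.map f ⊤ ≤ P • Submodule.map f ⊤ := by
    rw [← Submodule.map_smul'']
    rintro _ ⟨b, -, rfl⟩
    refine ⟨_, jr b h3, ?_⟩
    simp only [f, LinearMap.mulLeft_apply, mul_sub, mul_one, mul_smul_comm, ← mul_assoc, h1,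
      smul_zero, sub_zero]
  obtain ⟨r, r1, r2⟩ := Submodule.exists_sub_one_mem_and_smul_eq_zero_of_fg_of_le_smul P _
    (Module.Finite.fg_top.map f) h4
  exact ⟨r, r1, by simpa [f] using r2 (f 1) ⟨1, trivial, rfl⟩⟩

theorem jprod (u : L) (s : Multiset O) (hs : ∀ η ∈ s, 1 - η ∈ P) :
    aeval u (s.map fun η => X - C η).prod - (u - 1) ^ s.card ∈ P • (⊤ : Submodule O L) := by
  induction s using Multiset.induction_on with
  | empty => simp
  | cons η s ih =>
    have h1 := ih fun a ha => hs a (Multiset.mem_cons_of_mem ha)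
    rw [Multiset.map_cons, Multiset.prod_cons, map_mul, Multiset.card_cons, pow_succ', map_sub,
      aeval_X, aeval_C, Algebra.algebraMap_eq_smul_one]
    set A := aeval u (s.map fun η => X - C η).prod
    have : (u - η • 1) * A - (u - 1) * (u - 1) ^ s.card =
        (u - 1) * (A - (u - 1) ^ s.card) + (1 - η) • A := by
      simp only [sub_mul, mul_sub, smul_mul_assoc, one_mul, sub_smul, one_smul]
      abel
    rw [this]
    exact add_mem (jl _ h1) (Submodule.smul_mem_smul (hs η (Multiset.mem_cons_self _ _)) trivial)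

theorem jfrob {p : ℕ} (hp : p.Prime) (hP : (p : O) ∈ P) {u : L} {d c : ℕ} (hd : d ≤ p ^ c)
    (h : (u - 1) ^ d ∈ P • (⊤ : Submodule O L)) : u ^ p ^ c - 1 ∈ P • (⊤ : Submodule O L) := by
  obtain ⟨r, hr⟩ := (Commute.one_right (u - 1)).exists_add_pow_prime_pow_eq hp c
  rw [sub_add_cancel, one_pow, mul_one, mul_assoc, ← nsmul_eq_mul,
    ← Nat.cast_smul_eq_nsmul O] at hr
  have h1 : u ^ p ^ c - 1 = (u - 1) ^ d * (u - 1) ^ (p ^ c - d) + (p : O) • ((u - 1) * r) := by
    rw [← pow_add, Nat.add_sub_cancel' hd, hr]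
    abel
  rw [h1]
  exact add_mem (jr _ h) (Submodule.smul_mem_smul hP trivial)

/-- The congruence subgroup. -/
def cong {G : Type} [Group G] (P : Ideal O) (σ : G →* L) : Subgroup G where
  carrier := {y | σ y - 1 ∈ P • (⊤ : Submodule O L)}
  one_mem' := by simp
  mul_mem' {a b} ha hb := by
    have : σ (a * b) - 1 = σ a * (σ b - 1) + (σ a - 1) := by
      rw [map_mul, mul_sub, mul_one, sub_add_sub_cancel]
    change σ (a * b) - 1 ∈ P • (⊤ : Submodule O L)
    rw [this]
    exact add_mem (jl _ hb) ha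
  inv_mem' {a} ha := by
    have : σ a⁻¹ - 1 = -(σ a⁻¹ * (σ a - 1)) := by
      rw [mul_sub, ← map_mul, inv_mul_cancel, map_one, mul_one, neg_sub]
    change σ a⁻¹ - 1 ∈ P • (⊤ : Submodule O L)
    rw [this]
    exact neg_mem (jl _ ha)

theorem cong_normal {G : Type} [Group G] (P : Ideal O) (σ : G →* L) : (cong P σ).Normal := by
  refine ⟨fun a ha g => ?_⟩
  have : σ (g * a * g⁻¹) - 1 = σ g * (σ a - 1) * σ g⁻¹ := by
    rw [mul_sub, sub_mul, mul_one, ← map_mul, ← map_mul, ← map_mul, mul_inv_cancel, map_one]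
  change σ (g * a * g⁻¹) - 1 ∈ P • (⊤ : Submodule O L)
  rw [this]
  exact jr _ (jl _ ha)

end alg

variable {n : Type} [Fintype n] [DecidableEq n] {G : Type} [Group G] {p : ℕ}

/-- There is a normal subgroup with `p`-group image that contains the `p ^ c`-th power of every
`p`-element as soon as `p ^ c` is at least the degree. -/
theorem exists_normal_p [Finite G] (ρ : G →* Matrix n n ℂ) (hp : p.Prime) :
    ∃ N : Subgroup G, N.Normal ∧ (∀ y ∈ N, ∃ k, ρ y ^ p ^ k = 1) ∧
      ∀ (x : G) (k c : ℕ), x ^ p ^ k = 1 → Fintype.card n ≤ p ^ c → x ^ p ^ c ∈ N := by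
  have := Fact.mk hp
  obtain ⟨P, hP, hPc⟩ := Ideal.exists_ideal_over_maximal_of_isIntegral
    (S := integralClosure ℤ ℂ) (Ideal.span {(p : ℤ)}) (fun x => by simp +contextual)
  have hpP : (p : integralClosure ℤ ℂ) ∈ P := by
    have : (p : ℤ) ∈ P.comap (algebraMap ℤ (integralClosure ℤ ℂ)) :=
      hPc ▸ Ideal.mem_span_singleton_self _
    simpa using this
  have fg : (lam ρ).toSubmodule.FG := by
    rw [lam, Algebra.adjoin_eq_span, ← MonoidHom.coe_mrange, Submonoid.closure_eq]
    exact Submodule.fg_span (Set.finite_range ρ)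
  have : Module.Finite (integralClosure ℤ ℂ) (lam ρ) := Module.Finite.iff_fg.2 fg
  let σ : G →* lam ρ := ρ.codRestrict (lam ρ) (mem_lam ρ)
  refine ⟨cong P σ, cong_normal P σ, fun y hy => ?_, fun x k c hx hc => ?_⟩
  · obtain ⟨k, l, hl, hk⟩ := Nat.exists_eq_pow_mul_and_not_dvd (orderOf_pos y).ne' p hp.ne_one
    obtain ⟨a, b, hab⟩ : IsCoprime (l : integralClosure ℤ ℂ) p :=
      ((hp.coprime_iff_not_dvd.2 hl).symm).cast
    obtain ⟨r, r1, r2⟩ := nak (P := P) (u := σ (y ^ p ^ k)) (l := l) (a := a)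
      (by rw [← map_pow, ← pow_mul, ← hk, pow_orderOf_eq_one, map_one])
      ((cong P σ).pow_mem hy _) (by
        rw [← hab, add_sub_cancel_left]
        exact P.mul_mem_left _ hpP)
    have r0 : (r : ℂ) ≠ 0 := fun h => hP.ne_top ((Ideal.eq_top_iff_one _).2 (by
      rw [show r = 0 from Subtype.ext h, zero_sub] at r1
      exact neg_mem_iff.1 r1))
    have r3 : (r : ℂ) • (ρ (y ^ p ^ k) - 1) = 0 := congrArg Subtype.val r2
    exact ⟨k, by rw [← map_pow]; exact sub_eq_zero.1 ((smul_eq_zero.1 r3).resolve_left r0)⟩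
  · have hX : ρ x ^ p ^ k = 1 := by rw [← map_pow, hx, map_one]
    have hs := IsAlgClosed.splits (ρ x).charpoly
    have h1 : ∀ η ∈ (ρ x).charpoly.roots, η ^ p ^ k = 1 := fun η hη => by
      have h2 := spectrum.pow_mem_pow _ (p ^ k)
        (mem_spectrum_iff_isRoot_charpoly.2 (isRoot_of_mem_roots hη))
      rw [hX] at h2
      rcases subsingleton_or_nontrivial (Matrix n n ℂ) with h | h
      · simp [spectrum.of_subsingleton] at h2
      · rwa [spectrum.one_eq] at h2
    let s : Multiset (integralClosure ℤ ℂ) := (ρ x).charpoly.roots.attach.map fun η =>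
      ⟨η.1, int_of_pow (pow_ne_zero k hp.ne_zero) (h1 η.1 η.2)⟩
    have s1 : s.card = Fintype.card n := by
      rw [Multiset.card_map, Multiset.card_attach, ← hs.natDegree_eq_card_roots,
        charpoly_natDegree_eq_dim]
    have s2 : ∀ η ∈ s, 1 - η ∈ P := fun η hη => by
      obtain ⟨ξ, -, h3⟩ := Multiset.mem_map.1 hη
      have h4 : η ^ p ^ k = 1 := Subtype.ext (h3 ▸ h1 ξ.1 ξ.2)
      obtain ⟨r, hr⟩ := exists_add_pow_prime_pow_eq hp (η - 1) 1 k
      rw [sub_add_cancel, h4, one_pow] at hr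
      have h5 : (η - 1) ^ p ^ k = -(p * ((η - 1) * r)) := by linear_combination -hr
      rw [← neg_sub, neg_mem_iff]
      exact hP.isPrime.mem_of_pow_mem (p ^ k) (h5 ▸ neg_mem (P.mul_mem_right _ hpP))
    have s3 : aeval (σ x) (s.map fun η => X - C η).prod = 0 := by
      apply Subtype.ext
      have h6 : ((s.map fun η => X - C η).prod).map (algebraMap (integralClosure ℤ ℂ) ℂ) =
          (ρ x).charpoly := by
        conv_rhs => rw [hs.eq_prod_roots_of_monic (ρ x).charpoly_monic,
          ← Multiset.attach_map_val (ρ x).charpoly.roots]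
        simp only [s, Polynomial.map_multiset_prod, Multiset.map_map, Function.comp_def,
          Polynomial.map_sub, map_X, map_C]
        rfl
      have h7 := aeval_self_charpoly (ρ x)
      rw [← h6, aeval_map_algebraMap] at h7
      exact (aeval_algHom_apply (lam ρ).val (σ x) _).symm.trans h7
    have h8 := jprod (P := P) (σ x) s s2
    rw [s3, zero_sub, neg_mem_iff, s1] at h8
    change σ (x ^ p ^ c) - 1 ∈ P • (⊤ : Submodule (integralClosure ℤ ℂ) (lam ρ))
    rw [map_pow]
    exact jfrob hp hpP hc h8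

end Pool.Agent.Lib.MP_d87a8f_pr.K56
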