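import Mathlib

/-! Elements of large prime order of a finite linear group commute. -/

open Matrix Finset Polynomial
open scoped ComplexOrder

namespace Pool.Agent.Lib.MP_d87a8f_pr.K56

/-- Geometric sum. -/
def gs {B : Type*} [Ring B] (p : ℕ) (Y : B) : B := ∑ k ∈ range p, Y ^ k

/-- The test element built from two idempotents. -/
def nn {B : Type*} [Ring B] (E F : B) : B := E * F * (1 - E) * F * E

section ring
variable {B : Type*} [Ring B] {p : ℕ}

theorem mul_gs {Y : B} (h : Y ^ p = 1) : Y * gs p Y = gs p Y := by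
  have := mul_geom_sum Y p
  rw [h, sub_self, sub_mul, one_mul, sub_eq_zero] at this
  exact this

theorem gs_mul {Z e : B} (h : Z * e = e) : gs p Z * e = p • e := by
  have h1 : ∀ k, Z ^ k * e = e := fun k => by
    induction k with
    | zero => simp
    | succ k ih => rw [pow_succ, mul_assoc, h, ih]
  simp only [gs, Finset.sum_mul, h1, Finset.sum_const, Finset.card_range]

theorem map_gs {C : Type*} [Ring C] (f : B →+* C) (Y : B) : f (gs p Y) = gs p (f Y) := by
  simp only [gs, map_sum, map_pow]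

theorem map_nn {C : Type*} [Ring C] (f : B →+* C) (E F : B) : f (nn E F) = nn (f E) (f F) := by
  simp only [nn, map_mul, map_sub, map_one]

end ring

variable {n : Type} [Fintype n] [DecidableEq n] {p : ℕ}

/-- The projection on the fixed vectors of `Y`. -/
noncomputable def pr (p : ℕ) (Y : Matrix n n ℂ) : Matrix n n ℂ := (p : ℂ)⁻¹ • gs p Y

theorem pr_idem (hp : p ≠ 0) {Y : Matrix n n ℂ} (h : Y ^ p = 1) : pr p Y * pr p Y = pr p Y := by
  have h0 : (p : ℂ) ≠ 0 := Nat.cast_ne_zero.2 hp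
  rw [pr, smul_mul_smul_comm, gs_mul (mul_gs h), ← Nat.cast_smul_eq_nsmul ℂ, smul_smul,
    mul_assoc, inv_mul_cancel₀ h0, mul_one]

theorem pr_herm (hp : p ≠ 0) {Y : Matrix n n ℂ} (h : Y ^ p = 1) (hu : Yᴴ * Y = 1) :
    (pr p Y)ᴴ = pr p Y := by
  have h0 : (p : ℂ) ≠ 0 := Nat.cast_ne_zero.2 hp
  have h1 : Yᴴ * gs p Y = gs p Y := by
    conv_lhs => rw [← mul_gs h, ← mul_assoc, hu, one_mul]
  have h2 : (gs p Y)ᴴ = gs p Yᴴ := by
    simp only [gs, conjTranspose_sum, conjTranspose_pow]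
  have h3 : (gs p Y)ᴴ * gs p Y = p • gs p Y := by rw [h2, gs_mul h1]
  have h4 := congrArg conjTranspose h3
  rw [conjTranspose_mul, conjTranspose_conjTranspose, h3, conjTranspose_nsmul,
    ← Nat.cast_smul_eq_nsmul ℂ, ← Nat.cast_smul_eq_nsmul ℂ] at h4
  have h5 : gs p Y = (gs p Y)ᴴ := smul_right_injective _ h0 h4
  rw [pr, conjTranspose_smul, ← h5]
  simp

theorem nn_eq {E F : Matrix n n ℂ} (hE : E * E = E) (hEh : Eᴴ = E) (hFh : Fᴴ = F) :
    nn E F = ((1 - E) * F * E)ᴴ * ((1 - E) * F * E) := by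
  have h1 : ∀ X : Matrix n n ℂ, E * (E * X) = E * X := fun X => by rw [← mul_assoc, hE]
  simp only [nn, conjTranspose_mul, conjTranspose_sub, hEh, hFh, mul_sub,
    sub_mul, mul_assoc, one_mul, mul_one, h1]
  abel

theorem two_proj {E F : Matrix n n ℂ} (hE : E * E = E) (hF : F * F = F) (hEh : Eᴴ = E)
    (hFh : Fᴴ = F) {v : n → ℂ} (hv : v ≠ 0) {α : ℂ} (h : nn E F *ᵥ v = α • v) :
    ‖α‖ ≤ 1 / 4 := by
  have h1 : ∀ X : Matrix n n ℂ, E * (E * X) = E * X := fun X => by rw [← mul_assoc, hE]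
  have h2 : ∀ X : Matrix n n ℂ, F * (F * X) = F * X := fun X => by rw [← mul_assoc, hF]
  have e2 : (1 / 4 : ℂ) • (1 : Matrix n n ℂ) - nn E F =
      (E * F * E - (1 / 2 : ℂ) • 1)ᴴ * (E * F * E - (1 / 2 : ℂ) • 1) := by
    have : star (1 / 2 : ℂ) = 1 / 2 := by simp
    simp only [nn, conjTranspose_mul, conjTranspose_sub, conjTranspose_one, conjTranspose_smul,
      this, hEh, hFh, mul_sub, sub_mul, mul_assoc, one_mul, mul_one, h1, h2, smul_mul_assoc,
      mul_smul_comm]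
    module
  have a1 := (posSemidef_conjTranspose_mul_self ((1 - E) * F * E)).dotProduct_mulVec_nonneg v
  have a2 := (posSemidef_conjTranspose_mul_self
    (E * F * E - (1 / 2 : ℂ) • 1)).dotProduct_mulVec_nonneg v
  rw [← nn_eq hE hEh hFh, h, dotProduct_smul, smul_eq_mul] at a1
  rw [← e2, sub_mulVec, h, smul_mulVec, one_mulVec, ← sub_smul, dotProduct_smul,
    smul_eq_mul] at a2
  have a3 : 0 < star v ⬝ᵥ v := dotProduct_star_self_pos_iff.2 hv
  set s := star v ⬝ᵥ v
  obtain ⟨s1, s2⟩ := Complex.lt_def.1 a3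
  obtain ⟨b1, b2⟩ := Complex.le_def.1 a1
  obtain ⟨c1, -⟩ := Complex.le_def.1 a2
  simp only [Complex.zero_re, Complex.zero_im, Complex.mul_re, Complex.mul_im, ← s2, mul_zero,
    sub_zero, zero_add, Complex.sub_re] at s1 b1 b2 c1
  have i0 : α.im = 0 := (mul_eq_zero.1 b2.symm).resolve_right s1.ne'
  have r0 : 0 ≤ α.re := nonneg_of_mul_nonneg_left b1 s1
  have r1 : 0 ≤ (1 / 4 : ℂ).re - α.re := nonneg_of_mul_nonneg_left c1 s1
  have r2 : (1 / 4 : ℂ).re = 1 / 4 := by norm_num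
  refine (Complex.norm_le_abs_re_add_abs_im α).trans ?_
  rw [i0, abs_zero, add_zero, abs_of_nonneg r0]
  linarith

theorem aeval_mul_eig {m : Type} {X : Matrix n n ℂ} {P : Matrix n m ℂ} {c : ℂ}
    (h : X * P = c • P) (q : ℂ[X]) : aeval X q * P = q.eval c • P := by
  have h1 : ∀ k, X ^ k * P = c ^ k • P := fun k => by
    induction k with
    | zero => simp
    | succ k ih => rw [pow_succ, Matrix.mul_assoc, h, Matrix.mul_smul, ih, smul_smul, pow_succ']
  induction q using Polynomial.induction_on' with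
  | add a b ha hb => rw [map_add, Matrix.add_mul, ha, hb, eval_add, add_smul]
  | monomial k a =>
    rw [aeval_monomial, ← Algebra.smul_def, Matrix.smul_mul, h1, smul_smul, eval_monomial]

variable {G : Type} [Group G]

/-- The order spanned by the image of the representation over the algebraic integers. -/
noncomputable def lam (ρ : G →* Matrix n n ℂ) :
    Subalgebra (integralClosure ℤ ℂ) (Matrix n n ℂ) :=
  Algebra.adjoin (integralClosure ℤ ℂ) (Set.range ρ)

theorem mem_lam (ρ : G →* Matrix n n ℂ) (g : G) : ρ g ∈ lam ρ := Algebra.subset_adjoin ⟨g, rfl⟩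

theorem smul_mem_lam (ρ : G →* Matrix n n ℂ) {c : ℂ} (hc : IsIntegral ℤ c) {M : Matrix n n ℂ}
    (hM : M ∈ lam ρ) : c • M ∈ lam ρ :=
  (lam ρ).smul_mem hM (⟨c, hc⟩ : integralClosure ℤ ℂ)

theorem eig_int [Finite G] (ρ : G →* Matrix n n ℂ) {M : Matrix n n ℂ} (hM : M ∈ lam ρ)
    {v : n → ℂ} (hv : v ≠ 0) {β : ℂ} (h : M *ᵥ v = β • v) : IsIntegral ℤ β := by
  have fg : (lam ρ).toSubmodule.FG := by
    rw [lam, Algebra.adjoin_eq_span, ← MonoidHom.coe_mrange, Submonoid.closure_eq]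
    exact Submodule.fg_span (Set.finite_range ρ)
  obtain ⟨q, q1, q2⟩ := IsIntegral.of_mem_of_fg _ fg M hM
  have h1 : M * replicateCol Unit v = β • replicateCol Unit v := by
    rw [← replicateCol_mulVec, h, replicateCol_smul]
  have h2 := aeval_mul_eig h1 (q.map (algebraMap (integralClosure ℤ ℂ) ℂ))
  rw [aeval_map_algebraMap, aeval_def, q2, Matrix.zero_mul, eval_map] at h2
  have h3 : replicateCol Unit v ≠ 0 := fun h0 => hv (by
    ext i
    exact congrFun (congrFun h0 i) ())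
  exact isIntegral_trans β ⟨q, q1, (smul_eq_zero.1 h2.symm).resolve_right h3⟩

theorem int_of_pow {a : ℂ} (hp : p ≠ 0) (h : a ^ p = 1) : IsIntegral ℤ a :=
  IsIntegral.of_pow (Nat.pos_of_ne_zero hp) (h ▸ isIntegral_one)

theorem root_diff (hp : p.Prime) {a b : ℂ} (ha : a ^ p = 1) (hb : b ^ p = 1) (hab : a ≠ b) :
    ∃ z, IsIntegral ℤ z ∧ (p : ℂ) = z * (a - b) ^ (p - 1) := by
  have := Fact.mk hp
  have b0 : b ≠ 0 := by
    rintro rfl
    rw [zero_pow hp.ne_zero] at hb
    exact zero_ne_one hb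
  have h1 : (a * b⁻¹) ^ p = 1 := by rw [mul_pow, inv_pow, ha, hb, inv_one, mul_one]
  have h2 : a * b⁻¹ ≠ 1 := fun h => hab ((mul_inv_eq_one₀ b0).1 h)
  have h3 : IsPrimitiveRoot (a * b⁻¹) p := by
    have := IsPrimitiveRoot.orderOf (a * b⁻¹)
    rwa [orderOf_eq_prime h1 h2] at this
  obtain ⟨z, z1, z2⟩ := h3.self_sub_one_pow_dvd_order (Nat.sub_one_lt hp.ne_zero)
  refine ⟨z * b, (adjoin_le_integralClosure (int_of_pow hp.ne_zero h1) z1).mul
    (int_of_pow hp.ne_zero hb), ?_⟩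
  have h4 : a - b = b * (a * b⁻¹ - 1) := by field_simp
  rw [h4, mul_pow, mul_assoc, ← mul_assoc b, ← pow_succ', Nat.sub_add_cancel hp.pos, hb, one_mul]
  exact z2

theorem sum_pr {ζ : ℂ} (hζ : IsPrimitiveRoot ζ p) (hp : p ≠ 0) (X : Matrix n n ℂ) :
    ∑ j ∈ range p, pr p (ζ ^ j • X) = 1 := by
  have h0 : (p : ℂ) ≠ 0 := Nat.cast_ne_zero.2 hp
  simp only [pr, gs, _root_.smul_pow, ← Finset.smul_sum]
  rw [Finset.sum_comm]
  simp only [← Finset.sum_smul]
  rw [Finset.sum_eq_single 0]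
  · simp [smul_smul, h0]
  · intro k hk k0
    have h1 := mul_geom_sum (ζ ^ k) p
    rw [← pow_mul, mul_comm k p, pow_mul, hζ.pow_eq_one, one_pow, sub_self] at h1
    have h2 := (mul_eq_zero.1 h1).resolve_left
      (sub_ne_zero.2 (hζ.pow_ne_one_of_pos_of_lt k0 (Finset.mem_range.1 hk)))
    have h3 : ∀ j, (ζ ^ j) ^ k = (ζ ^ k) ^ j := fun j => by rw [← pow_mul, ← pow_mul, mul_comm]
    simp only [h3, h2, zero_smul]
  · intro h
    exact absurd (Finset.mem_range.2 (Nat.pos_of_ne_zero hp)) h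

theorem smul_pow_eq {μ : ℂ} (hμ : μ ^ p = 1) {X : Matrix n n ℂ} (hX : X ^ p = 1) :
    (μ • X) ^ p = 1 := by rw [_root_.smul_pow, hμ, hX, one_smul]

theorem mul_pr (hp : p ≠ 0) {μ : ℂ} (hμ : μ ^ p = 1) {X : Matrix n n ℂ} (hX : X ^ p = 1) :
    X * pr p (μ • X) = μ⁻¹ • pr p (μ • X) := by
  have m0 : μ ≠ 0 := by
    rintro rfl
    rw [zero_pow hp] at hμ
    exact zero_ne_one hμ
  have h1 := mul_gs (smul_pow_eq hμ hX)
  rw [smul_mul_assoc] at h1
  rw [pr, mul_smul_comm, smul_comm μ⁻¹]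
  congr 1
  rw [eq_inv_smul_iff₀ m0, h1]

theorem pow_pow_eq {ζ : ℂ} (hζ : IsPrimitiveRoot ζ p) (j : ℕ) : (ζ ^ j) ^ p = 1 := by
  rw [← pow_mul, mul_comm, pow_mul, hζ.pow_eq_one, one_pow]

theorem exists_den (ρ : G →* Matrix n n ℂ) (hp : p.Prime) {ζ : ℂ} (hζ : IsPrimitiveRoot ζ p)
    {x : G} (hx : x ^ p = 1) {i : ℕ} (hi : i < p) :
    ∃ δ z : ℂ, IsIntegral ℤ δ ∧ IsIntegral ℤ z ∧
      (p : ℂ) ^ Fintype.card n = z * δ ^ (p - 1) ∧ δ • pr p (ζ ^ i • ρ x) ∈ lam ρ := by
  classical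
  have hX : ρ x ^ p = 1 := by rw [← map_pow, hx, map_one]
  set P : ℕ → Matrix n n ℂ := fun j => pr p (ζ ^ j • ρ x) with hP
  set c : ℕ → ℂ := fun j => (ζ ^ j)⁻¹ with hc
  have c1 : ∀ j, c j ^ p = 1 := fun j => by rw [hc, inv_pow, pow_pow_eq hζ, inv_one]
  have c2 : ∀ j, ρ x * P j = c j • P j := fun j => mul_pr hp.ne_zero (pow_pow_eq hζ j) hX
  have c3 : ∀ j < p, ∀ k < p, c j = c k → j = k := fun j hj k hk h =>
    hζ.pow_inj hj hk (inv_injective h)
  set S := (range p).filter fun j => P j ≠ 0 with hS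
  have hcard : S.card ≤ Fintype.card n := by
    have h1 : S.card ≤ (ρ x).charpoly.roots.toFinset.card := by
      refine Finset.card_le_card_of_injOn c (fun j hj => ?_) fun j hj k hk h => ?_
      · have h2 := aeval_mul_eig (c2 j) (ρ x).charpoly
        rw [aeval_self_charpoly, Matrix.zero_mul] at h2
        have h3 := (smul_eq_zero.1 h2.symm).resolve_right (Finset.mem_filter.1 hj).2
        simpa [(ρ x).charpoly_monic.ne_zero] using h3
      · exact c3 j (Finset.mem_range.1 (Finset.mem_filter.1 hj).1) k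
          (Finset.mem_range.1 (Finset.mem_filter.1 hk).1) h
    refine h1.trans ((Multiset.toFinset_card_le _).trans ((card_roots' _).trans ?_))
    rw [charpoly_natDegree_eq_dim]
  have hq : ∀ T : Finset ℕ, aeval (ρ x) (∏ j ∈ T, (X - C (c j))) ∈ lam ρ := fun T => by
    induction T using Finset.induction_on with
    | empty => simp
    | insert a T ha ih =>
      rw [Finset.prod_insert ha, map_mul]
      refine (lam ρ).mul_mem ?_ ih
      rw [map_sub, aeval_X, aeval_C, Algebra.algebraMap_eq_smul_one]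
      exact (lam ρ).sub_mem (mem_lam ρ x)
        (smul_mem_lam ρ (int_of_pow hp.ne_zero (c1 a)) (lam ρ).one_mem)
  have hz : ∀ j, ∃ z, IsIntegral ℤ z ∧ (j ∈ S.erase i → (p : ℂ) = z * (c i - c j) ^ (p - 1)) :=
    fun j => by
      by_cases h : j ∈ S.erase i
      · obtain ⟨h1, h2⟩ := Finset.mem_erase.1 h
        obtain ⟨z, z1, z2⟩ := root_diff hp (c1 i) (c1 j) fun h3 => h1
          (c3 i hi j (Finset.mem_range.1 (Finset.mem_filter.1 h2).1) h3).symm
        exact ⟨z, z1, fun _ => z2⟩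
      · exact ⟨0, isIntegral_zero, fun h1 => absurd h1 h⟩
  choose z z1 z2 using hz
  have hle : (S.erase i).card ≤ Fintype.card n := Finset.card_erase_le.trans hcard
  refine ⟨∏ j ∈ S.erase i, (c i - c j),
    (p : ℂ) ^ (Fintype.card n - (S.erase i).card) * ∏ j ∈ S.erase i, z j,
    IsIntegral.prod _ fun j _ =>
      (int_of_pow hp.ne_zero (c1 i)).sub (int_of_pow hp.ne_zero (c1 j)),
    ((isIntegral_natCast (R := ℤ) p).pow _).mul (IsIntegral.prod _ fun j _ => z1 j), ?_, ?_⟩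
  · rw [mul_assoc, ← Finset.prod_pow, ← Finset.prod_mul_distrib,
      ← Finset.prod_congr rfl z2, Finset.prod_const, ← pow_add, Nat.sub_add_cancel hle]
  · have h1 := hq (S.erase i)
    rw [← mul_one (aeval _ _), ← sum_pr hζ hp.ne_zero (ρ x), Finset.mul_sum,
      Finset.sum_eq_single i] at h1
    · rw [aeval_mul_eig (c2 i), eval_prod] at h1
      simpa using h1
    · intro j hj hji
      rw [aeval_mul_eig (c2 j)]
      by_cases h : P j = 0
      · rw [h, smul_zero]
      · rw [eval_prod, Finset.prod_eq_zero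
          (Finset.mem_erase.2 ⟨hji, Finset.mem_filter.2 ⟨hj, h⟩⟩) (by simp), zero_smul]
    · intro h
      exact absurd (Finset.mem_range.2 hi) h

/-- The regular representation. -/
noncomputable def reg (G : Type) [Group G] [Fintype G] [DecidableEq G] : G →* Matrix G G ℂ where
  toFun g := Matrix.of fun a b => if a = g * b then 1 else 0
  map_one' := by
    ext a b
    simp [Matrix.one_apply]
  map_mul' g h := by
    ext a b
    simp [Matrix.mul_apply, mul_assoc]

theorem reg_unit [Fintype G] [DecidableEq G] (g : G) : (reg G g)ᴴ * reg G g = 1 := by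
  have h : (reg G g)ᴴ = reg G g⁻¹ := by
    ext a b
    simp [reg, eq_inv_mul_iff_mul_eq, eq_comm]
  rw [h, ← map_mul, inv_mul_cancel, map_one]

/-- Extension of a representation to the group algebra along an embedding of the field. -/
noncomputable def lf {K : Type} [Field K] (τ : K →+* ℂ) (r : G →* Matrix n n ℂ) :
    MonoidAlgebra K G →+* Matrix n n ℂ :=
  MonoidAlgebra.liftNCRingHom ((algebraMap ℂ _).comp τ) r fun _ _ => Algebra.commutes _ _

theorem lf_single {K : Type} [Field K] (τ : K →+* ℂ) (r : G →* Matrix n n ℂ) (g : G) (c : K) :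
    lf τ r (MonoidAlgebra.single g c) = τ c • r g := by
  rw [Algebra.smul_def]
  exact MonoidAlgebra.liftNCRingHom_single _ _ _ _ _

theorem lf_reg [Fintype G] [DecidableEq G] {K : Type} [Field K] (τ : K →+* ℂ)
    (w : MonoidAlgebra K G) (a : G) : lf τ (reg G) w a 1 = τ (w.coeff a) := by
  induction w using MonoidAlgebra.induction_linear with
  | zero => simp
  | add x y hx hy => simp [hx, hy]
  | single g c =>
    rw [lf_single]
    by_cases h : a = g
    · simp [reg, h]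
    · simp [reg, h]

theorem transfer [Fintype G] [DecidableEq G] {K : Type} [Field K] (τ0 τ : K →+* ℂ)
    (r : G →* Matrix n n ℂ) (u : MonoidAlgebra K G) {v : n → ℂ} (hv : v ≠ 0)
    (h : lf τ0 r u *ᵥ v = 0) : ∃ w ≠ 0, lf τ (reg G) u *ᵥ w = 0 := by
  have : IsArtinianRing (MonoidAlgebra K G) := IsArtinianRing.of_finite K _
  rw [exists_mulVec_eq_zero_iff]
  by_contra hd
  have h1 : IsUnit (lf τ (reg G) u) := (isUnit_iff_isUnit_det _).2 (Ne.isUnit hd)
  have h2 : IsUnit u := by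
    refine IsArtinianRing.isUnit_iff_isRightRegular.2 fun a b hab => ?_
    have h3 : lf τ (reg G) a = lf τ (reg G) b := h1.mul_right_cancel (by
      rw [← map_mul, ← map_mul]
      exact congrArg _ hab)
    ext g
    exact τ.injective (by rw [← lf_reg, ← lf_reg, h3])
  have h4 := ((isUnit_iff_isUnit_det _).1 (h2.map (lf τ0 r))).ne_zero
  exact h4 (exists_mulVec_eq_zero_iff.1 ⟨v, hv, h⟩)

theorem unit_smul {μ : ℂ} (hp : p ≠ 0) (hμ : μ ^ p = 1) {X : Matrix n n ℂ} (hu : Xᴴ * X = 1) :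
    (μ • X)ᴴ * (μ • X) = 1 := by
  have h1 : ‖μ‖ = 1 := Complex.norm_eq_one_of_pow_eq_one hμ hp
  rw [conjTranspose_smul, smul_mul_smul_comm, hu, Complex.star_def, Complex.conj_mul', h1]
  simp

theorem eig_zero [Finite G] (ρ : G →* Matrix n n ℂ) (hp : p ≠ 0) {x y : G} (hx : x ^ p = 1)
    (hy : y ^ p = 1) {μ ν α : ℂ} (hμ : μ ^ p = 1) (hν : ν ^ p = 1) {c : ℕ}
    (hc : p ^ c < 4 ^ (p - 1)) (hi : IsIntegral ℤ ((p : ℂ) ^ c * α ^ (p - 1))) {v : n → ℂ}
    (hv : v ≠ 0) (h : nn (pr p (μ • ρ x)) (pr p (ν • ρ y)) *ᵥ v = α • v) : α = 0 := by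
  classical
  have := Fintype.ofFinite G
  have p0 : (p : ℂ) ≠ 0 := Nat.cast_ne_zero.2 hp
  have p1 : 0 < p - 1 := by
    rcases Nat.eq_zero_or_pos (p - 1) with h0 | h0
    · rw [h0, pow_zero] at hc
      exact absurd hc (not_lt.2 (Nat.one_le_pow _ _ (Nat.pos_of_ne_zero hp)))
    · exact h0
  have iα : IsIntegral ℚ α := by
    refine IsIntegral.of_pow p1 ?_
    have h1 := (hi.tower_top (A := ℚ)).smul (((p : ℚ) ^ c)⁻¹)
    have h2 : ((p : ℚ) ^ c)⁻¹ • ((p : ℂ) ^ c * α ^ (p - 1)) = α ^ (p - 1) := by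
      rw [Rat.smul_def]
      push_cast
      rw [inv_mul_cancel_left₀ (pow_ne_zero _ p0)]
    rwa [h2] at h1
  let K := IntermediateField.adjoin ℚ ({μ, ν, α} : Set ℂ)
  have : FiniteDimensional ℚ K := IntermediateField.finiteDimensional_adjoin (by
    rintro z (rfl | rfl | rfl)
    exacts [(int_of_pow hp hμ).tower_top, (int_of_pow hp hν).tower_top, iα])
  have : NumberField K := {}
  let μ' : K := ⟨μ, IntermediateField.subset_adjoin _ _ (by simp)⟩
  let ν' : K := ⟨ν, IntermediateField.subset_adjoin _ _ (by simp)⟩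
  let α' : K := ⟨α, IntermediateField.subset_adjoin _ _ (by simp)⟩
  let e : G → K → MonoidAlgebra K G := fun g m =>
    MonoidAlgebra.single 1 (p : K)⁻¹ * gs p (MonoidAlgebra.single g m)
  let u : MonoidAlgebra K G := nn (e x μ') (e y ν') - MonoidAlgebra.single 1 α'
  have hu : ∀ {m : Type} [Fintype m] [DecidableEq m] (τ : K →+* ℂ) (r : G →* Matrix m m ℂ)
      (w : m → ℂ), lf τ r u *ᵥ w =
        nn (pr p (τ μ' • r x)) (pr p (τ ν' • r y)) *ᵥ w - τ α' • w := by
    intro m _ _ τ r w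
    simp only [u, e, map_sub, map_nn, map_mul, map_gs, lf_single, map_one, map_inv₀, map_natCast,
      smul_mul_assoc, one_mul, pr, sub_mulVec, smul_mulVec, one_mulVec]
  have h0 : lf (algebraMap K ℂ) ρ u *ᵥ v = 0 := by
    rw [hu, sub_eq_zero]
    exact h
  have hb : ∀ τ : K →+* ℂ, ‖τ ((p : K) ^ c * α' ^ (p - 1))‖ < 1 := fun τ => by
    obtain ⟨w, w0, hw⟩ := transfer (algebraMap K ℂ) τ ρ u hv h0
    rw [hu, sub_eq_zero] at hw
    have m1 : τ μ' ^ p = 1 := by
      rw [← map_pow, show μ' ^ p = 1 from Subtype.ext hμ, map_one]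
    have m2 : τ ν' ^ p = 1 := by
      rw [← map_pow, show ν' ^ p = 1 from Subtype.ext hν, map_one]
    have x1 := smul_pow_eq m1 (show reg G x ^ p = 1 by rw [← map_pow, hx, map_one])
    have y1 := smul_pow_eq m2 (show reg G y ^ p = 1 by rw [← map_pow, hy, map_one])
    have h3 := two_proj (pr_idem hp x1) (pr_idem hp y1)
      (pr_herm hp x1 (unit_smul hp m1 (reg_unit x))) (pr_herm hp y1 (unit_smul hp m2 (reg_unit y)))
      w0 hw
    rw [map_mul, map_pow, map_pow, map_natCast, norm_mul, norm_pow, norm_pow, Complex.norm_natCast]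
    have h4 : ((p : ℝ) ^ c) < 4 ^ (p - 1) := by exact_mod_cast hc
    calc (p : ℝ) ^ c * ‖τ α'‖ ^ (p - 1) ≤ (p : ℝ) ^ c * (1 / 4) ^ (p - 1) := by gcongr
      _ < 4 ^ (p - 1) * (1 / 4) ^ (p - 1) := by gcongr
      _ = 1 := by rw [← mul_pow]; norm_num
  by_contra hα
  have n0 : (p : K) ^ c * α' ^ (p - 1) ≠ 0 :=
    mul_ne_zero (pow_ne_zero _ (Nat.cast_ne_zero.2 hp))
      (pow_ne_zero _ fun h1 => hα (congrArg Subtype.val h1))
  have i0 : IsIntegral ℤ ((p : K) ^ c * α' ^ (p - 1)) := by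
    refine (isIntegral_algebraMap_iff (algebraMap K ℂ).injective).1 ?_
    simpa using hi
  obtain ⟨k, k0, hk⟩ := NumberField.Embeddings.pow_eq_one_of_norm_le_one K ℂ n0 i0
    fun τ => (hb τ).le
  have h5 := congrArg (fun t => ‖algebraMap K ℂ t‖) hk
  simp only [map_pow, norm_pow, map_one, norm_one] at h5
  exact absurd h5 (pow_lt_one₀ (norm_nonneg _) (hb _) k0.ne').ne

theorem num_bd {D p : ℕ} (hp : 2 ≤ p) (h : 16 * D ^ 2 ≤ p) : p ^ (5 * D) < 4 ^ (p - 1) := by
  rcases Nat.eq_zero_or_pos D with rfl | D0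
  · simpa using Nat.one_lt_pow (by omega) (by norm_num : 1 < 4)
  set s := Nat.sqrt p
  have s1 : 4 * D ≤ s := Nat.le_sqrt'.2 (by nlinarith)
  have s2 : s ^ 2 ≤ p := Nat.sqrt_le' p
  have s3 : p < (s + 1) ^ 2 := Nat.lt_succ_sqrt' p
  set k := 3 * s / 4
  have k1 : 4 * k ≤ 3 * s := by omega
  have k2 : 3 * s < 4 * k + 4 := by omega
  have k3 : 3 ≤ k := by omega
  have k4 : ∀ j, 4 * (j + 3) + 6 ≤ 3 * 2 ^ (j + 3) := fun j => by
    induction j with
    | zero => norm_num
    | succ j ih => rw [show j + 1 + 3 = j + 3 + 1 by ring, pow_succ]; omega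
  have k5 : s + 1 ≤ 2 ^ k := by
    have := k4 (k - 3)
    rw [Nat.sub_add_cancel k3] at this
    omega
  have k6 : k * 2 * (5 * D) ≤ 2 * (p - 1) := by
    have a1 : 4 * D * (4 * k) ≤ s * (3 * s) := Nat.mul_le_mul s1 k1
    have a2 : 4 * 4 ≤ s * s := Nat.mul_le_mul (by omega) (by omega)
    have a3 : 10 * (k * D) + 2 ≤ 2 * p := by nlinarith
    have a4 : k * 2 * (5 * D) = 10 * (k * D) := by ring
    omega
  calc p ^ (5 * D) < ((s + 1) ^ 2) ^ (5 * D) := Nat.pow_lt_pow_left s3 (by omega)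
    _ ≤ ((2 ^ k) ^ 2) ^ (5 * D) := by gcongr
    _ = 2 ^ (k * 2 * (5 * D)) := by rw [← pow_mul, ← pow_mul, mul_assoc]
    _ ≤ 2 ^ (2 * (p - 1)) := Nat.pow_le_pow_right (by norm_num) k6
    _ = 4 ^ (p - 1) := by rw [pow_mul]; norm_num

/-- Two elements of large prime order commute in a unitary representation of small degree. -/
theorem commute_of_prime [Finite G] (ρ : G →* Matrix n n ℂ) (hu : ∀ g, ρ g * (ρ g)ᴴ = 1)
    (hp : p.Prime) (hD : 16 * Fintype.card n ^ 2 ≤ p) {x y : G} (hx : x ^ p = 1)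
    (hy : y ^ p = 1) : Commute (ρ x) (ρ y) := by
  have p0 := hp.ne_zero
  have hζ := Complex.isPrimitiveRoot_exp p p0
  set ζ := Complex.exp (2 * Real.pi * Complex.I / p)
  have hX : ρ x ^ p = 1 := by rw [← map_pow, hx, map_one]
  have hY : ρ y ^ p = 1 := by rw [← map_pow, hy, map_one]
  have key : ∀ i ∈ range p, ∀ j ∈ range p,
      Commute (pr p (ζ ^ i • ρ x)) (pr p (ζ ^ j • ρ y)) := by
    intro i hi j hj
    obtain ⟨δ, z, d1, z1, d2, d3⟩ := exists_den ρ hp hζ hx (Finset.mem_range.1 hi)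
    obtain ⟨ε, w, e1, w1, e2, e3⟩ := exists_den ρ hp hζ hy (Finset.mem_range.1 hj)
    have x1 := smul_pow_eq (pow_pow_eq hζ i) hX
    have y1 := smul_pow_eq (pow_pow_eq hζ j) hY
    have hE := pr_idem p0 x1
    have hEh := pr_herm p0 x1 (unit_smul p0 (pow_pow_eq hζ i) (mul_eq_one_comm.1 (hu x)))
    have hFh := pr_herm p0 y1 (unit_smul p0 (pow_pow_eq hζ j) (mul_eq_one_comm.1 (hu y)))
    have hz := fun α c hc hi v hv h => eig_zero ρ p0 hx hy (α := α) (pow_pow_eq hζ i)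
      (pow_pow_eq hζ j) (c := c) hc hi (v := v) hv h
    set E := pr p (ζ ^ i • ρ x)
    set F := pr p (ζ ^ j • ρ y)
    have hm : (δ ^ 3 * ε ^ 2) • nn E F ∈ lam ρ := by
      have : (δ ^ 3 * ε ^ 2) • nn E F =
          (δ • E) * (ε • F) * (δ • 1 - δ • E) * (ε • F) * (δ • E) := by
        rw [← smul_sub]
        simp only [smul_mul_smul_comm, nn]
        congr 1
        ring
      rw [this]
      exact (lam ρ).mul_mem ((lam ρ).mul_mem ((lam ρ).mul_mem ((lam ρ).mul_mem d3 e3)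
        ((lam ρ).sub_mem (smul_mem_lam ρ d1 (lam ρ).one_mem) d3)) e3) d3
    have hN : (nn E F).IsHermitian := by
      rw [nn_eq hE hEh hFh]
      exact isHermitian_conjTranspose_mul_self _
    have h0 : nn E F = 0 := by
      refine hN.eigenvalues_eq_zero_iff.1 (funext fun k => ?_)
      have v0 : (hN.eigenvectorBasis k).ofLp ≠ 0 := fun h =>
        hN.eigenvectorBasis.orthonormal.ne_zero k (by ext a; exact congrFun h a)
      have hv : nn E F *ᵥ (hN.eigenvectorBasis k).ofLp =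
          ((hN.eigenvalues k : ℝ) : ℂ) • (hN.eigenvectorBasis k).ofLp := by
        rw [hN.mulVec_eigenvectorBasis k]
        ext a
        simp
      have i1 := eig_int ρ hm v0 (β := δ ^ 3 * ε ^ 2 * hN.eigenvalues k) (by
        rw [smul_mulVec, hv, smul_smul])
      have i2 : IsIntegral ℤ ((p : ℂ) ^ (5 * Fintype.card n) *
          ((hN.eigenvalues k : ℝ) : ℂ) ^ (p - 1)) := by
        have : (p : ℂ) ^ (5 * Fintype.card n) * ((hN.eigenvalues k : ℝ) : ℂ) ^ (p - 1) =
            z ^ 3 * w ^ 2 * (δ ^ 3 * ε ^ 2 * hN.eigenvalues k) ^ (p - 1) := by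
          have : (p : ℂ) ^ (5 * Fintype.card n) =
              ((p : ℂ) ^ Fintype.card n) ^ 3 * ((p : ℂ) ^ Fintype.card n) ^ 2 := by ring
          rw [this]
          conv_lhs => enter [1, 1, 1]; rw [d2]
          conv_lhs => enter [1, 2, 1]; rw [e2]
          ring
        rw [this]
        exact ((z1.pow 3).mul (w1.pow 2)).mul (i1.pow _)
      exact Complex.ofReal_eq_zero.1 (hz _ _ (num_bd hp.two_le hD) i2 _ v0 hv)
    rw [nn_eq hE hEh hFh, conjTranspose_mul_self_eq_zero, sub_mul, sub_mul, one_mul,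
      sub_eq_zero] at h0
    have h1 := congrArg conjTranspose h0
    simp only [conjTranspose_mul, hEh, hFh, ← mul_assoc] at h1
    exact h1.trans h0.symm
  have dec : ∀ X : Matrix n n ℂ, X ^ p = 1 →
      X = ∑ i ∈ range p, (ζ ^ i)⁻¹ • pr p (ζ ^ i • X) := fun X h => by
    conv_lhs => rw [← mul_one X, ← sum_pr hζ p0 X, Finset.mul_sum]
    exact Finset.sum_congr rfl fun i _ => mul_pr p0 (pow_pow_eq hζ i) h
  rw [dec _ hX, dec _ hY]
  exact Commute.sum_left _ _ _ fun i hi => Commute.sum_right _ _ _ fun j hj =>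
    ((key i hi j hj).smul_left _).smul_right _

end Pool.Agent.Lib.MP_d87a8f_pr.K56
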